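import Pool.Agent.L0h35.TgMain

set_option autoImplicit false

/-!
# Depth with faulty negations

Each circuit can be brought into the form where negations occur only at the inputs, with the same
depth: a circuit without NOT gates whose inputs are the `2 n` literals `x 1, ..., x n` and
`¬ x 1, ..., ¬ x n`. For such circuits the best lower bound for the depth of an explicit function is
`(3 - o(1)) log n`. Here we show that an explicit monotone function needs depth
`(n / (D (log n) ^ 4)) ^ (1 / 30)`, if the negations are *faulty*: each of the `n` negated literals is
replaced by `0` with probability `1 / D`, independently of the others, and the circuit has to accept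
the strings in the language in spite of this with probability at least `4 / 5`. For an expected number
`n / D = (log n) ^ (4 + 30 a)` of faults the depth is at least `(log n) ^ a`, for each `a > 1`, so it is
superlogarithmic although the circuit has to cope with a polylogarithmic number of faults only; for
`n / D = n ^ ε` the depth is at least `n ^ (ε / 31)` for large `n`. (For `D` larger than, say, `10 n`
there are no faults at all with probability `9 / 10`, so a superlogarithmic bound for `D = 10 n` would
prove that P is not in NC1.)

`Circuit`, `Circuit.value`, `Circuit.nots` (the number of NOT gates), `Circuit.depth` and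
`Circuit.size` (AND and OR gates) are defined in `Pool.Agent.L0h35.NgCircDefs`, and
`Pool.Agent.NPC.InP` is the class P (Mathlib's Turing machines with stacks, polynomial time). The
language is `Pool.Agent.NPC.L0h35Tg.TagL` (`Pool.Agent.L0h35.TgDefs`).

The proof. The language `PadL` of the hand-in `FunctionsOfFewCircuits` is read through *tags*: at the
scale `κ` a bit of the string which is read is the OR of `2 ^ κ` bits of the input. To a string `y` of
length about `n / (2 ^ κ log n)` and a random choice of tags one takes the input `x` that has a one at
the tag chosen for the equation `e` if `y e = 1`, and zeros elsewhere; for the circuit on the input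
`x` this is compared with the circuit where the negated literals at all the chosen tags are `0`. The
latter is a monotone circuit in `y`. If the number `2 ^ κ` of tags is at least `D log n`, then the two
are indistinguishable on the strings in the language up to a small error: the faults hide the places
of the tags (this is the argument of the hand-in `FaultyNegations` of `MP_62e2f2_lc`). So there are
monotone circuits of the same depth for `PadL`, with errors.
-/

open scoped Classical

namespace Pool.Agent.Results.MP_027d00_lc.FaultyNegations

open Pool.Agent.NPC Pool.Agent.L0h35.Ng

/-- **Faulty negations.** There are a monotone language `L` in P and `n₀` such that for all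
`n ≥ n₀` and `D ≥ 1` with `D (log n) ^ 34 ≤ n` (logarithms to base 2) the following holds. Let
`C ω` (`ω` in a finite nonempty set) be circuits without NOT gates whose `2 n` inputs are the literals
`x 1, ..., x n, ¬ x 1, ..., ¬ x n`. Suppose that

* for each string `x` of length `n` in `L`, the circuit `C ω` accepts `x` with probability at least
  `4 / 5` (over the random choice of `ω`), where each of the negated literals is replaced by `0` with
  probability `1 / D`, independently, and
* for each string `x` of length `n` that is not in `L` it accepts `x` (with the correct negated
  literals) with probability at most `1 / 4`.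

Then one of the circuits `C ω` has depth at least `Δ` and size at least `2 ^ Δ`, where
`Δ = (n / (D (log n) ^ 4)) ^ (1 / 30)`. -/
theorem result : ∃ L : Set (List Bool), InP L ∧
    (∀ x y : List Bool, x.length = y.length →
      (∀ i, x.getD i false = true → y.getD i false = true) → x ∈ L → y ∈ L) ∧
    ∃ n₀ : ℕ, ∀ n : ℕ, n₀ ≤ n → ∀ D : ℕ, 1 ≤ D → D * Real.logb 2 n ^ 34 ≤ n →
      ∀ (Ω : Type) [Fintype Ω] [Nonempty Ω] (C : Ω → Circuit (n + n)),
        (∀ ω, (C ω).nots = 0) →
        (∀ x : Fin n → Bool, List.ofFn x ∈ L →
          (4 / 5 : ℝ) * (Fintype.card Ω * (D : ℝ) ^ n) ≤
            Fintype.card {s : Ω × (Fin n → Fin D) // (C s.1).value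
              (Fin.append x fun i => !x i && decide ((s.2 i : ℕ) ≠ 0)) = true}) →
        (∀ x : Fin n → Bool, List.ofFn x ∉ L →
          (Fintype.card {ω : Ω // (C ω).value (Fin.append x fun i => !x i) = true} : ℝ) ≤
            1 / 4 * Fintype.card Ω) →
        ∃ ω, (n / (D * Real.logb 2 n ^ 4)) ^ (1 / 30 : ℝ) ≤ ((C ω).depth : ℝ) ∧
          (2 : ℝ) ^ ((n / (D * Real.logb 2 n ^ 4)) ^ (1 / 30 : ℝ)) ≤ ((C ω).size : ℝ) :=
  Pool.Agent.L0h35.stTg

end Pool.Agent.Results.MP_027d00_lc.FaultyNegations
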