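import Pool.Agent.L0h35.PmMain

set_option autoImplicit false

/-!
# A language in P that is hard even if all but polylogarithmically many variables are free

`Pool.Agent.NPC.InP` is the class P (Mathlib's Turing machines with stacks, polynomial time).
Circuits with AND, OR and NOT gates (`Circuit`, `Circuit.value`, `Circuit.depth`, `Circuit.size`,
`Circuit.nots`) are defined in `Pool.Agent.L0h35.NgCircDefs`; the depth counts the AND and OR gates
on a path only, so it is at most the length of a longest path, and the size counts the AND and OR
gates.

The model. For inputs `x` of length `N`, an adversary chooses a set `T` of variables. A circuit may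
use, besides the variables, arbitrary Boolean functions `G_1(x), ..., G_M(x)` of the variables
outside `T` as additional inputs, at no cost; in particular the variables outside `T` may be negated
freely. It has at most `r` NOT gates. More generally we consider arbitrary functions `h` of the
`G_j(x)` and of the values of `K` such circuits, and random choices of `G`, `h` and the circuits.

The theorem: for one explicit language in P and all large `N`, all `T`, `K`, `r` and `ε` with
`K 2 ^ r (log N) ^ 32 ≤ ε |T|`, every such representation that is right with probability
`1/2 + ε` for every input contains a circuit of depth at least `D` and size at least `2 ^ D`,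
`D = (ε |T| / (K 2 ^ r (log N) ^ 2)) ^ (1 / 30)`. So the depth is superlogarithmic as soon as, say,
`K 2 ^ r (log N) ^ 62 ≤ |T|`: the lower bound that is asked for in the question holds if negations
are not available for some `polylog N` of the `N` variables, whichever these are, while everything
that depends on the other variables is free. For `T = ∅` there would be nothing to compute.

The language: a string consists of a flag, two blocks of equal length and perhaps one more bit. The
flag tells which block contains the data; the other block contains a number `m` and `m` positions
in the data block, and the string is accepted if the `m` bits of data at these positions form a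
string of the monotone language of `FunctionsOfFewCircuits` (the equations modulo 17 that are
present have no common solution).

The proof: `T` contains at least `(|T| - 2) / 2` positions of one of the blocks. The other block is
fixed in such a way that it points to these positions; then all variables are fixed except for the
data that are read, which are in `T`. The functions `G_j` become constants, and the circuits become
circuits with at most `r` NOT gates for the monotone language.
-/

open scoped Classical

namespace Pool.Agent.Results.MP_027d00_lc.FreeVariables

open Pool.Agent.NPC Pool.Agent.L0h35.Ng

/-- There is a language `L` in P such that for all sufficiently large `N`, all sets `T` of variables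
and all `K`, `r`, `ε` with `K ≥ 1`, `0 < ε ≤ 1/2` and `K 2 ^ r (log N) ^ 32 ≤ ε |T|`: let `G ω j` be
functions of the input that do not depend on the variables in `T`, let `C ω i` be circuits with at
most `r` NOT gates in the variables and in the values of the functions `G ω j`, and let `h ω` be
arbitrary functions of the values of the functions `G ω j` and of the circuits `C ω i`. If a random
member of this finite family decides membership in `L` correctly with probability at least `1/2 + ε`
for every input of length `N`, then one of the circuits has depth at least `D` and size at least
`2 ^ D`, where `D = (ε |T| / (K 2 ^ r (log N) ^ 2)) ^ (1 / 30)`. -/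
theorem result : ∃ L : Set (List Bool), InP L ∧
    ∃ n₀ : ℕ, ∀ N : ℕ, n₀ ≤ N → ∀ (T : Finset (Fin N)) (K r : ℕ) (ε : ℝ), 1 ≤ K → 0 < ε →
      ε ≤ 1 / 2 → K * (2 : ℝ) ^ r * Real.logb 2 N ^ 32 ≤ ε * T.card →
      ∀ (Ω : Type) [Fintype Ω] [Nonempty Ω] (M : ℕ) (G : Ω → Fin M → (Fin N → Bool) → Bool)
        (h : Ω → (Fin M → Bool) → (Fin K → Bool) → Bool) (C : Ω → Fin K → Circuit (N + M)),
        (∀ ω j (x y : Fin N → Bool), (∀ i, i ∉ T → x i = y i) → G ω j x = G ω j y) →
        (∀ ω i, (C ω i).nots ≤ r) →
        (∀ x : Fin N → Bool, (1 / 2 + ε) * Fintype.card Ω ≤
            Fintype.card {ω // h ω (fun j => G ω j x)
              (fun i => (C ω i).value (Fin.append x fun j => G ω j x)) = true ↔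
                List.ofFn x ∈ L}) →
        ∃ ω i, (ε * T.card / (K * 2 ^ r * Real.logb 2 N ^ 2)) ^ (1 / 30 : ℝ) ≤ (C ω i).depth ∧
          (2 : ℝ) ^ ((ε * T.card / (K * 2 ^ r * Real.logb 2 N ^ 2)) ^ (1 / 30 : ℝ)) ≤
            (C ω i).size :=
  Pool.Agent.L0h35.stPm

end Pool.Agent.Results.MP_027d00_lc.FreeVariables
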