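import Pool.Agent.L0h35.NhFinal

set_option autoImplicit false

/-!
# A monotone language in P that is not a function of few circuits of small depth

`Pool.Agent.NPC.InP` is the class P (Mathlib's Turing machines with stacks, polynomial time).
Circuits with AND, OR and NOT gates (`Circuit`, `Circuit.value`, `Circuit.depth`, `Circuit.size`,
`Circuit.nots`) are defined in `Pool.Agent.L0h35.NgCircDefs`; the depth counts the AND and OR gates
on a path only, so it is at most the length of a longest path, and the size counts the AND and OR
gates.

We consider representations of a Boolean function as `h (C_1 x, ..., C_K x)`, where `h` is an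
arbitrary function and the `C_i` are circuits with at most `r` NOT gates. Special cases are circuits
with `r` NOT gates (`K = 1`) and circuits with an arbitrary upper part and a monotone lower part
which are joined by `K` wires (`r = 0`). The representation may be randomised, with an
advantage of only `ε`, and it may be right only for inputs with at least `k` and at most
`k + W` ones.

The theorem says that for some monotone language in P such a representation needs circuits of
large depth and size, as long as `K 2 ^ r (log n) ^ 30 ≤ ε W`. This condition is optimal up to the
power of `log n`: every function in NC1 (and every function with circuits of polynomial size) has on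
each slice (the inputs with a given number of ones) a monotone circuit of logarithmic depth
(polynomial size) (Berkowitz), so that `2 (W + 1)` monotone circuits (for the slices and for the
threshold functions) suffice for a representation on the window, and a random choice of `2 ε W` of
the slices gives the advantage `ε`.

The language: the bits of the first half of a string of length `n` tell which equations of a
fixed list of linear equations modulo 17 in three unknowns are present; the string is in the
language if these equations have no common solution. The list consists of `O(log n)` scales,
and the scale `m` (a power of two) of blocks of `289 m ^ 2` equations which share no unknowns.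

The proof. Blocks are filled one after the other. A filled block is a random system which
has a solution by its choice (a system satisfied by a random labelling), and in the step `t` the
block `t` is filled with a random copy of a system without solutions, all of whose small parts can
be solved. A circuit with `r` NOT gates is described by `(r + 1) 2 ^ r` monotone functions, which
arise from guessing the values of the NOT gates, and if a representation is right before and after
the step `t` then one of the monotone functions of one of the circuits jumps there. By the
approximation method a monotone function of small size or depth accepts the copies of the bad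
system with at most the probability with which it accepts the random solvable systems, plus an
exponentially small number; since it jumps at most once if all blocks are filled with
solvable systems, it jumps in the bad step `t` for at most about one `t`, on the average.
-/

open scoped Classical

namespace Pool.Agent.Results.MP_027d00_lc.FunctionsOfFewCircuits

open Pool.Agent.NPC Pool.Agent.L0h35.Ng

/-- There is a language `L` in P, which is monotone, such that for all sufficiently large `n` and
all `k`, `W`, `K`, `r`, `ε` with `2 k ≤ n`, `W ≤ n`, `K ≥ 1`, `0 < ε ≤ 1/2` and
`K 2 ^ r (log n) ^ 30 ≤ ε W`: if a random member of the finite family of functions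
`h ω (C ω 1, ..., C ω K)`, where the `h ω` are arbitrary and the `C ω i` are circuits with at most `r`
NOT gates, decides membership in `L` correctly with probability at least `1/2 + ε` for every input
of length `n` with at least `k` and at most `k + W` ones, then one of the circuits has
depth at least `D` and size at least `2 ^ D`, where `D = (ε W / (K 2 ^ r)) ^ (1 / 30)`. -/
theorem result : ∃ L : Set (List Bool), InP L ∧
    (∀ x y : List Bool, x.length = y.length →
      (∀ i, x.getD i false = true → y.getD i false = true) → x ∈ L → y ∈ L) ∧
    ∃ n₀ : ℕ, ∀ n : ℕ, n₀ ≤ n → ∀ (k W K r : ℕ) (ε : ℝ), 2 * k ≤ n → W ≤ n → 1 ≤ K → 0 < ε →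
      ε ≤ 1 / 2 → K * (2 : ℝ) ^ r * Real.logb 2 n ^ 30 ≤ ε * W →
      ∀ (Ω : Type) [Fintype Ω] [Nonempty Ω] (h : Ω → (Fin K → Bool) → Bool)
        (C : Ω → Fin K → Circuit n), (∀ ω i, (C ω i).nots ≤ r) →
        (∀ x : Fin n → Bool, k ≤ Fintype.card {i // x i = true} →
          Fintype.card {i // x i = true} ≤ k + W →
          (1 / 2 + ε) * Fintype.card Ω ≤
            Fintype.card {ω // h ω (fun i => (C ω i).value x) = true ↔ List.ofFn x ∈ L}) →
        ∃ ω i, (ε * W / (K * 2 ^ r)) ^ (1 / 30 : ℝ) ≤ (C ω i).depth ∧
          (2 : ℝ) ^ ((ε * W / (K * 2 ^ r)) ^ (1 / 30 : ℝ)) ≤ (C ω i).size := by
  obtain ⟨n0, hmain⟩ := L0h35Ng.final_eps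
  refine ⟨L0h35Ng.PadL, L0h35Ng.pad_inP, fun x y h1 h2 h3 => L0h35Ng.pad_mono h1 h2 h3,
    n0, fun n hn k W K r ε hk hW hK hε hε2 hr Ω _ _ h C hC hright => ?_⟩
  by_contra hcon
  push Not at hcon
  refine hmain n hn k W K r ε hk hW hK hε hε2 hr Ω h C hC (fun x h1 h2 => ?_) fun ω i => ?_
  · rw [← Fintype.card_subtype] at h1 h2 ⊢
    exact hright x h1 h2
  · by_cases h1 : (ε * W / (K * 2 ^ r)) ^ (1 / 30 : ℝ) ≤ (C ω i).depth
    · exact Or.inl (hcon ω i h1)
    · exact Or.inr (not_le.1 h1)

end Pool.Agent.Results.MP_027d00_lc.FunctionsOfFewCircuits
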