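import Pool.Agent.L0h35.TsEquiv
import Pool.Agent.L0h35.TsThr

set_option autoImplicit false

/-!
# Depth with few NOT gates: a transfer theorem and equivalent forms of the question

Circuits with AND, OR and NOT gates (`Circuit`, `Circuit.value`, `Circuit.nots`) are defined in
`Pool.Agent.L0h35.NgCircDefs`; `Circuit.fullDepth` (`Pool.Agent.L0h35.TsDefs`) is the length of a
longest path to the output, where AND, OR and NOT gates are counted; `Circuit.depth` counts only the
AND and OR gates on a path. `Pool.Agent.NPC.InP` is the class P (Mathlib's Turing machines with
stacks, polynomial time). In `Pool.Agent.L0h35.TsEquiv`: `Computes C L` means that `C` computes `L` on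
the strings of its length, `NC1 L` that `L` has circuits of depth `O(log n)`, and `MonLang L` that
`L` is monotone.

A *window* consists of the inputs with at least `k` and at most `k + W` ones.

1. **The transfer theorem.** Let `f` be a monotone function with a circuit of depth `d` (with any
   number of NOT gates) that is right on a window. Then for all `K ≥ 1` and `r` there is a
   representation of `f` on the window as a function of `K` circuits with at most `r` NOT gates
   each and of depth at most `d + O((W / (K 2 ^ r) + 1) log n)`. For `K = 1` it is one circuit. For
   `W = 0`, `r = 0` this is Berkowitz's theorem on slice functions, and for `W = n`, `K = 1`,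
   `2 ^ r > n` it is the theorem of Markov and Fischer for depth. New is the range between these.

2. **Equivalent forms of the question.** For each fixed `j`: some language in P is not in NC1 if and
   only if some *monotone* language in P has no circuits of depth `O(log n)` with at most
   `⌊log n⌋ - j` NOT gates.

3. More generally, some language in P is not in NC1 if and only if, for some monotone language in P,
   circuits of depth `O((W / 2 ^ r + 1) log n)` with `r` NOT gates do not suffice for the windows.

For comparison: the hand-in `FunctionsOfFewCircuits` gives a monotone language in P for which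
representations as in 1. need depth at least `(W / (K 2 ^ r)) ^ (1 / 30)` if
`W / (K 2 ^ r) ≥ 2 (log n) ^ 30`. So the upper bound in 1. is optimal up to a polynomial (the
language there is in NC2), superlogarithmic depth is known to be necessary for up to
`log n - O(log log n)` NOT gates, whereas by 2. the same for `log n - O(1)` NOT gates is equivalent to
the question; and by 1. the question would be answered by a lower bound of the form
`(W / (K 2 ^ r)) ^ c` with `c > 1`, instead of `1 / 30`.

The proof of 1. Thick slices: if `M` is a monotone formula for the window `k, ..., k + W` which is `1`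
above it, then for a monotone function `f` the window `k, ..., k + W + 1` is handled by a threshold of
the `n` values of `M` on the inputs obtained by switching off one bit (an input with
`k + W + 1` ones and `f = 0` gives exactly `n - k - W - 1` ones, an input with `f = 1` in the old
window at least `n - k - W`), together with the slice formula for `k + W + 1`. With threshold
formulas of depth `O(log n)` (Valiant) this costs `O(log n)` for each slice. Each NOT gate then halves
the window: it is used to compute one bit of the number of ones exactly, and the formulas for the
`2 ^ r` parts of the window are selected with the bits, the last one first, at cost `O(1)` for each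
bit.
-/

open scoped Classical

namespace Pool.Agent.Results.MP_027d00_lc.TransferToFewNegations

open Pool.Agent.NPC Pool.Agent.L0h35.Ng Pool.Agent.L0h35.Ts

/-- **Transfer to few NOT gates, and equivalent forms of the question.** (`wt x` is the number of
ones of `x`.)

1. There is a constant `c` such that for all `n ≥ 2`, all monotone `f : {0,1}^n → {0,1}`, all
   `k`, `W`, `r` and `K ≥ 1` and each circuit `C` that computes `f` on the inputs with at least `k` and
   at most `k + W` ones: there are circuits `C' 1, ..., C' K` with at most `r` NOT gates each and of
   depth at most `depth C + c (W / (K 2 ^ r) + 1) log n`, and a function `h` with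
   `h (C' 1 x, ..., C' K x) = f x` for these inputs; if `K = 1` then `h` is the identity.
2. For each `j`: P is not contained in NC1 if and only if there is a monotone language in P that is
   not computed by circuits of depth `O(log n)` with at most `⌊log n⌋ - j` NOT gates.
3. P is not contained in NC1 if and only if there is a monotone language `L` in P for which the
   following fails for each constant `c'`: for all `n ≥ 2`, `k`, `W`, `r`, a circuit of depth at most
   `c' (W / 2 ^ r + 1) log n` with at most `r` NOT gates decides `L` on the inputs of length `n` with at
   least `k` and at most `k + W` ones. -/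
theorem result :
    (∃ c : ℕ, ∀ n : ℕ, 2 ≤ n → ∀ f : (Fin n → Bool) → Bool,
      (∀ x y : Fin n → Bool, (∀ i, x i = true → y i = true) → f x = true → f y = true) →
      ∀ (C : Circuit n) (k W K r : ℕ), 1 ≤ K →
        (∀ x, k ≤ wt x → wt x ≤ k + W → C.value x = f x) →
        ∃ (h : (Fin K → Bool) → Bool) (C' : Fin K → Circuit n),
          (∀ i, (C' i).nots ≤ r ∧ ((C' i).fullDepth : ℝ) ≤
            C.depth + c * ((W : ℝ) / (K * 2 ^ r) + 1) * Real.logb 2 n) ∧
          (∀ x, k ≤ wt x → wt x ≤ k + W → h (fun i => (C' i).value x) = f x) ∧
          (∀ h1 : K = 1, ∀ b, h b = b ⟨0, by omega⟩)) ∧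
    (∀ j : ℕ, (∃ L, InP L ∧ ¬ NC1 L) ↔
      ∃ L, InP L ∧ MonLang L ∧ ¬ ∃ c : ℕ, ∀ n : ℕ, 2 ≤ n → ∃ C : Circuit n,
        C.nots ≤ Nat.log 2 n - j ∧ (C.fullDepth : ℝ) ≤ c * Real.logb 2 n ∧ Computes C L) ∧
    ((∃ L, InP L ∧ ¬ NC1 L) ↔
      ∃ L, InP L ∧ MonLang L ∧ ¬ ∃ c' : ℕ, ∀ n : ℕ, 2 ≤ n → ∀ k W r : ℕ, ∃ C : Circuit n,
        C.nots ≤ r ∧ (C.fullDepth : ℝ) ≤ c' * ((W : ℝ) / 2 ^ r + 1) * Real.logb 2 n ∧
        ∀ x, k ≤ wt x → wt x ≤ k + W → (C.value x = true ↔ List.ofFn x ∈ L)) := by
  obtain ⟨c, hc⟩ := stTHR
  have hc' : HasThr c := hc
  exact ⟨⟨4 * (c + 8), fun n hn f hf C k W K r hK hC => repr_real hc' hn f hf C k W K r hK hC⟩,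
    fun j => equiv_j hc' j, equiv_w hc'⟩

end Pool.Agent.Results.MP_027d00_lc.TransferToFewNegations
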